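import Pool.Agent.Helper95.FL.Stmts2

/-! Project FL/XT, piece A-8 (`StCount`): every coefficient is nonzero in few of the forms. -/

set_option autoImplicit false

namespace Pool.Agent.Helper64.FL

open Pool.Agent.Helper95.FL
open scoped Classical
open Finset

variable {X V : Type}

theorem edge_type (𝒞 : Cx X V) {s s' : Fin 3} {x y : X} (h : 𝒞.edge s x = 𝒞.edge s' y) :
    s = s' := by
  have h1 : 𝒞.ty (𝒞.edge s x).1 = 𝒞.ty (𝒞.edge s' y).1 := by rw [h]
  simp only [Cx.edge, 𝒞.ty_vert] at h1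
  exact add_right_cancel h1

theorem chi_edge (𝒞 : Cx X V) (s : Fin 3) (x : X) : 𝒞.chi x (𝒞.edge s x) = 1 :=
  if_pos ⟨s, rfl⟩

theorem chi_nonneg (𝒞 : Cx X V) (x : X) (e : V × V) : 0 ≤ 𝒞.chi x e := by
  unfold Cx.chi
  split_ifs <;> norm_num

theorem chi_le_one (𝒞 : Cx X V) (x : X) (e : V × V) : 𝒞.chi x e ≤ 1 := by
  unfold Cx.chi
  split_ifs <;> norm_num

theorem chi_ne_zero (𝒞 : Cx X V) {x : X} {e : V × V} (h : 𝒞.chi x e ≠ 0) :
    ∃ s, 𝒞.edge s x = e := by
  by_contra h1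
  exact h (if_neg h1)

/-- a chamber all of whose edges are edges of `y` is `y` -/
theorem eq_of_chi [Fintype X] {𝒞 : Cx X V} {d k : ℕ} (hN : 𝒞.Nice d k) {x y : X}
    (h : ∀ s, 𝒞.chi y (𝒞.edge s x) ≠ 0) : x = y := by
  apply hN.inj
  intro t
  obtain ⟨s', hs'⟩ := chi_ne_zero 𝒞 (h (t - 1))
  have h1 := edge_type 𝒞 hs'
  subst h1
  have h2 := congrArg Prod.fst hs'
  simp only [Cx.edge, sub_add_cancel] at h2
  exact h2.symm

section count

variable [Fintype X]

/-- the chambers with the edge `e` -/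
noncomputable def star (𝒞 : Cx X V) (e : V × V) : Finset X :=
  univ.filter fun x => ∃ s, 𝒞.edge s x = e

/-- the neighbours of a chamber -/
noncomputable def nbs (𝒞 : Cx X V) (x : X) : Finset X := univ.filter fun y => 𝒞.Nb x y

theorem card_star {𝒞 : Cx X V} {d k : ℕ} (hN : 𝒞.Nice d k) (e : V × V) :
    (star 𝒞 e).card ≤ d := by
  rcases (star 𝒞 e).eq_empty_or_nonempty with h | ⟨x, hx⟩
  · rw [h, card_empty]; exact Nat.zero_le _
  · obtain ⟨-, s, hs⟩ := mem_filter.mp hx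
    rw [← hN.star s x]
    refine card_le_card ?_
    intro y hy
    obtain ⟨-, s', hs'⟩ := mem_filter.mp hy
    have h1 : s' = s := edge_type 𝒞 (hs'.trans hs.symm)
    subst h1
    exact mem_filter.mpr ⟨mem_univ _, hs'.trans hs.symm⟩

theorem card_nbs {𝒞 : Cx X V} {d k : ℕ} (hN : 𝒞.Nice d k) (x : X) :
    (nbs 𝒞 x).card ≤ 3 * d := by
  have h1 : nbs 𝒞 x ⊆ (univ : Finset (Fin 3)).biUnion
      (fun s => univ.filter fun y => 𝒞.edge s y = 𝒞.edge s x) := by
    intro y hy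
    obtain ⟨-, s, hs⟩ := mem_filter.mp hy
    exact mem_biUnion.mpr ⟨s, mem_univ _, mem_filter.mpr ⟨mem_univ _, hs.symm⟩⟩
  refine (card_le_card h1).trans ?_
  refine (card_biUnion_le).trans ?_
  rw [sum_congr rfl (fun s _ => hN.star s x), sum_const, card_univ, Fintype.card_fin,
    smul_eq_mul]

omit [Fintype X] in
theorem nb_symm {𝒞 : Cx X V} {x y : X} (h : 𝒞.Nb x y) : 𝒞.Nb y x := by
  obtain ⟨s, hs⟩ := h
  exact ⟨s, hs.symm⟩

/-- pairs `(x, y)` with `x` in the star of `e` -/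
theorem card_two {α : Type} (𝒞 : Cx X V) {d k : ℕ} (hN : 𝒞.Nice d k) (e : V × V)
    (F : X → X → α) :
    ((star 𝒞 e).biUnion fun x => (nbs 𝒞 x).image fun y => F x y).card ≤ d * (3 * d) := by
  refine card_biUnion_le.trans ?_
  refine (sum_le_card_nsmul _ _ (3 * d) ?_).trans ?_
  · intro x _
    exact card_image_le.trans (card_nbs hN x)
  · rw [smul_eq_mul]
    exact Nat.mul_le_mul_right _ (card_star hN e)

theorem card_three {α : Type} (𝒞 : Cx X V) {d k : ℕ} (hN : 𝒞.Nice d k) (e : V × V)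
    (F : X → X → X → α) (g : X → X → X) :
    ((star 𝒞 e).biUnion fun x => (nbs 𝒞 x).biUnion fun y => (nbs 𝒞 (g x y)).image
      fun z => F x y z).card ≤ d * (3 * d * (3 * d)) := by
  refine card_biUnion_le.trans ?_
  refine (sum_le_card_nsmul _ _ (3 * d * (3 * d)) ?_).trans ?_
  · intro x _
    refine card_biUnion_le.trans ?_
    refine (sum_le_card_nsmul _ _ (3 * d) ?_).trans ?_
    · intro y _
      exact card_image_le.trans (card_nbs hN _)
    · rw [smul_eq_mul]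
      exact Nat.mul_le_mul_right _ (card_nbs hN x)
  · rw [smul_eq_mul]
    exact Nat.mul_le_mul_right _ (card_star hN e)

theorem mem_star {𝒞 : Cx X V} {x : X} {e : V × V} (h : 𝒞.chi x e ≠ 0) : x ∈ star 𝒞 e :=
  mem_filter.mpr ⟨mem_univ _, chi_ne_zero 𝒞 h⟩

theorem mem_nbs {𝒞 : Cx X V} {x y : X} (h : 𝒞.Nb x y) : y ∈ nbs 𝒞 x :=
  mem_filter.mpr ⟨mem_univ _, h⟩

theorem forms_subset (𝒞 : Cx X V) (e : V × V) :
    (𝒞.forms.filter fun f => f e ≠ 0) ⊆
      (((star 𝒞 e).biUnion fun x => (nbs 𝒞 x).image fun y => 𝒞.chi x - 𝒞.chi y) ∪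
      ((star 𝒞 e).biUnion fun y => (nbs 𝒞 y).image fun x => 𝒞.chi x - 𝒞.chi y)) ∪
      ((((star 𝒞 e).biUnion fun x => (nbs 𝒞 x).biUnion fun y => (nbs 𝒞 y).image fun z =>
        𝒞.chi x - 𝒞.chi y + 𝒞.chi z) ∪
      ((star 𝒞 e).biUnion fun y => (nbs 𝒞 y).biUnion fun x => (nbs 𝒞 y).image fun z =>
        𝒞.chi x - 𝒞.chi y + 𝒞.chi z)) ∪
      ((star 𝒞 e).biUnion fun z => (nbs 𝒞 z).biUnion fun y => (nbs 𝒞 y).image fun x =>
        𝒞.chi x - 𝒞.chi y + 𝒞.chi z)) := by
  intro f hf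
  obtain ⟨hf1, hf2⟩ := mem_filter.mp hf
  unfold Cx.forms at hf1
  rcases mem_union.mp hf1 with h | h
  · obtain ⟨⟨x, y⟩, hp, rfl⟩ := mem_image.mp h
    obtain ⟨-, -, hxy⟩ := mem_filter.mp hp
    refine mem_union_left _ ?_
    by_cases h1 : 𝒞.chi x e = 0
    · refine mem_union_right _ (mem_biUnion.mpr ⟨y, mem_star ?_, mem_image.mpr
        ⟨x, mem_nbs (nb_symm hxy), rfl⟩⟩)
      intro h2
      exact hf2 (by simp only [Pi.sub_apply, h1, h2, sub_zero])
    · exact mem_union_left _ (mem_biUnion.mpr ⟨x, mem_star h1, mem_image.mpr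
        ⟨y, mem_nbs hxy, rfl⟩⟩)
  · obtain ⟨⟨x, y, z⟩, hp, rfl⟩ := mem_image.mp h
    obtain ⟨-, hxy, hyz⟩ := mem_filter.mp hp
    refine mem_union_right _ ?_
    by_cases h1 : 𝒞.chi x e = 0
    · by_cases h2 : 𝒞.chi y e = 0
      · refine mem_union_right _ (mem_biUnion.mpr ⟨z, mem_star ?_, mem_biUnion.mpr
          ⟨y, mem_nbs (nb_symm hyz), mem_image.mpr ⟨x, mem_nbs (nb_symm hxy), rfl⟩⟩⟩)
        intro h3
        exact hf2 (by simp only [Pi.sub_apply, Pi.add_apply, h1, h2, h3, sub_zero, add_zero])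
      · exact mem_union_left _ (mem_union_right _ (mem_biUnion.mpr ⟨y, mem_star h2,
          mem_biUnion.mpr ⟨x, mem_nbs (nb_symm hxy), mem_image.mpr ⟨z, mem_nbs hyz, rfl⟩⟩⟩))
    · exact mem_union_left _ (mem_union_left _ (mem_biUnion.mpr ⟨x, mem_star h1,
        mem_biUnion.mpr ⟨y, mem_nbs hxy, mem_image.mpr ⟨z, mem_nbs hyz, rfl⟩⟩⟩))

/-- A-8. -/
theorem stCount : StCount := by
  intro X V _ 𝒞 d k hN hd
  refine ⟨?_, ?_⟩
  · intro e
    refine (card_le_card (forms_subset 𝒞 e)).trans ?_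
    have h1 := card_two 𝒞 hN e (fun x y => 𝒞.chi x - 𝒞.chi y)
    have h2 := card_two 𝒞 hN e (fun y x => 𝒞.chi x - 𝒞.chi y)
    have h3 := card_three 𝒞 hN e (fun x y z => 𝒞.chi x - 𝒞.chi y + 𝒞.chi z) (fun _ y => y)
    have h4 := card_three 𝒞 hN e (fun y x z => 𝒞.chi x - 𝒞.chi y + 𝒞.chi z) (fun y _ => y)
    have h5 := card_three 𝒞 hN e (fun z y x => 𝒞.chi x - 𝒞.chi y + 𝒞.chi z) (fun _ y => y)
    refine (card_union_le _ _).trans ((add_le_add (card_union_le _ _)
      ((card_union_le _ _).trans (add_le_add_left (card_union_le _ _) _))).trans ?_)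
    refine (add_le_add (add_le_add h1 h2) (add_le_add (add_le_add h3 h4) h5)).trans ?_
    have h6 : d ^ 2 ≤ d ^ 3 := Nat.pow_le_pow_right hd (by norm_num)
    nlinarith [h6]
  · intro f hf
    unfold Cx.forms at hf
    rcases mem_union.mp hf with h | h
    · obtain ⟨⟨x, y⟩, hp, rfl⟩ := mem_image.mp h
      obtain ⟨-, hne, -⟩ := mem_filter.mp hp
      intro h0
      apply hne
      refine eq_of_chi hN ?_
      intro s h1
      have h2 := congrFun h0 (𝒞.edge s x)
      simp only [Pi.sub_apply, Pi.zero_apply, chi_edge, h1] at h2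
      norm_num at h2
    · obtain ⟨⟨x, y, z⟩, hp, rfl⟩ := mem_image.mp h
      intro h0
      have h1 : ∀ e, 𝒞.chi y e = 𝒞.chi x e + 𝒞.chi z e := by
        intro e
        have h2 := congrFun h0 e
        simp only [Pi.sub_apply, Pi.add_apply, Pi.zero_apply] at h2
        linarith
      have hx : x = y := by
        refine eq_of_chi hN ?_
        intro s h2
        have h3 := h1 (𝒞.edge s x)
        rw [h2, chi_edge] at h3
        have h4 := chi_nonneg 𝒞 z (𝒞.edge s x)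
        linarith
      have hz : z = y := by
        refine eq_of_chi hN ?_
        intro s h2
        have h3 := h1 (𝒞.edge s z)
        rw [h2, chi_edge] at h3
        have h4 := chi_nonneg 𝒞 x (𝒞.edge s z)
        linarith
      subst hx
      subst hz
      have h3 := h1 (𝒞.edge 0 z)
      rw [chi_edge] at h3
      norm_num at h3

end count

end Pool.Agent.Helper64.FL
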